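import Pool.Agent.R904.CU.Regular
import Pool.Agent.Z125.UN.Sym
import Pool.Agent.Y116.UV.Graph

/-!
# Higher Chow groups of schemes of finite type over `ℤ`, rationally and formally
-/

set_option autoImplicit false

open CategoryTheory CategoryTheory.Limits AlgebraicGeometry MvPolynomial
open Pool.Agent.R904.CU Pool.Agent.Y116.UV Pool.Agent.Z125.UN

namespace Pool.Agent.R904.CH

/-- the affine scheme of a ring -/
noncomputable abbrev sp (A : Type) [CommRing A] : Scheme.{0} := Spec (.of A)

/-- the spectrum of `A[w] / (∑ f_l w_l - 1)`, an affine bundle over the complement of `f = 0`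
(Jouanolou) -/
noncomputable abbrev jouS {A : Type} [CommRing A] {r : ℕ} (f : Fin r → A) : Scheme.{0} :=
  Spec (.of (Jou f))

/-- the spectrum of `A[t, 1/t]` -/
noncomputable abbrev laurS (A : Type) [CommRing A] : Scheme.{0} := Spec (.of (LaurentPolynomial A))

/-- `j` is an open immersion onto the complement of `f = 0` -/
def IsCompl {A : Type} [CommRing A] {r : ℕ} (f : Fin r → A) {U : Scheme.{0}} (j : U ⟶ sp A) : Prop :=
  IsOpenImmersion j ∧ Set.range j = {x : PrimeSpectrum A | ∃ l, f l ∉ x.asIdeal}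

/-- The properties of the groups `CH_m(X, i) ⊗ ℚ` (indexed by dimension; `m ∈ ℤ`, `i ≥ 0`) of schemes of
finite type over `ℤ` which are used. -/
structure ChowThy where
  /-- the vector space `CH_m(X, i) ⊗ ℚ` -/
  G : ℕ → ℤ → Scheme.{0} → Type
  /-- its group structure -/
  grp : ∀ (i : ℕ) (m : ℤ) (X : Scheme.{0}), AddCommGroup (G i m X)
  /-- its structure of a vector space -/
  mod : ∀ (i : ℕ) (m : ℤ) (X : Scheme.{0}), Module ℚ (G i m X)
  /-- isomorphic schemes have isomorphic groups -/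
  iso : ∀ (i : ℕ) (m : ℤ) (X Y : Scheme.{0}), (X ≅ Y) → Nonempty (G i m X ≃ₗ[ℚ] G i m Y)
  /-- the localization sequence of a closed subscheme `Z` with open complement `U` -/
  localization : ∀ (m : ℤ) (X Z U : Scheme.{0}) (f : X ⟶ Spec (.of ℤ)) (i : Z ⟶ X) (j : U ⟶ X),
    FinType ℤ X f → IsClosedImmersion i → IsOpenImmersion j → Set.range i = (Set.range j)ᶜ →
    ∃ (a : ∀ n, G n m Z →ₗ[ℚ] G n m X) (b : ∀ n, G n m X →ₗ[ℚ] G n m U)
      (d : ∀ n, G (n + 1) m U →ₗ[ℚ] G n m Z),
      (∀ n, Function.Exact (a n) (b n)) ∧ (∀ n, Function.Exact (b (n + 1)) (d n)) ∧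
      (∀ n, Function.Exact (d n) (a n)) ∧ Function.Surjective (b 0)
  /-- homotopy invariance for the affine bundles of Jouanolou, with fibre `𝔸^(r-1)` -/
  bundle : ∀ (i : ℕ) (m : ℤ) (A : Type) [CommRing A] [Algebra.FiniteType ℤ A] (r : ℕ)
    (f : Fin r → A) (U : Scheme.{0}) (j : U ⟶ sp A), IsCompl f j →
    Nonempty (G i m U ≃ₗ[ℚ] G i (m + (r - 1 : ℕ)) (jouS f))
  /-- `CH_m(X, i)` is a direct summand of `CH_{m+1}(X × 𝔾_m, i)` -/
  torus : ∀ (i : ℕ) (m : ℤ) (A : Type) [CommRing A] [Algebra.FiniteType ℤ A],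
    ∃ p : G i (m + 1) (laurS A) →ₗ[ℚ] G i m (sp A), Function.Surjective p
  /-- finite rank in dimension at most one (Quillen, Harder) -/
  curves : ∀ (i : ℕ) (m : ℤ) (X : Scheme.{0}) (f : X ⟶ Spec (.of ℤ)), FinType ℤ X f →
    topologicalKrullDim X ≤ 1 → Module.Finite ℚ (G i m X)

attribute [instance] ChowThy.grp ChowThy.mod

/-- all groups `CH_m(X, i)` have finite rank -/
def ChowThy.Fin (K : ChowThy) (X : Scheme.{0}) : Prop :=
  ∀ (i : ℕ) (m : ℤ), Module.Finite ℚ (K.G i m X)

/-- the groups of all schemes of finite type over `ℤ` have finite rank -/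
def ChowThy.All (K : ChowThy) : Prop :=
  ∀ (X : Scheme.{0}) (f : X ⟶ Spec (.of ℤ)), FinType ℤ X f → K.Fin X

/-- The groups of the hypersurfaces `T(x, y, z) = 1` over `ℤ` have finite rank, for all trilinear forms
`T` with coefficients `0` and `1`. -/
def ChowThy.ZeroOne (K : ChowThy) : Prop :=
  ∀ (a b c : ℕ) (T : _root_.Fin a → _root_.Fin b → _root_.Fin c → ℤ),
    (∀ i j k, T i j k = 0 ∨ T i j k = 1) → K.Fin (hypS T).left

/-- The groups of the smooth separated schemes of finite type over `k` and of dimension at most `d` have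
finite rank. -/
def ChowThy.SmoothDim (K : ChowThy) (k : Type) [Field k] (d : ℕ) : Prop :=
  ∀ X : Sch k, FT True X → Smooth X.hom → topologicalKrullDim X.left ≤ d → K.Fin X.left

/-- The groups of the hypersurfaces `T(x, y, z) = 1` over `R` have finite rank, for all trilinear forms
`T` over `R` such that one of the three blocks of variables has at most `m` variables. -/
def ChowThy.Block (K : ChowThy) (R : Type) [CommRing R] (m : ℕ) : Prop :=
  ∀ (a b c : ℕ) (T : _root_.Fin a → _root_.Fin b → _root_.Fin c → R), (a ≤ m ∨ b ≤ m ∨ c ≤ m) →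
    K.Fin (hypS T).left

end Pool.Agent.R904.CH
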