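import Pool.Agent.R904.CH.Defs
import Pool.Agent.R904.TR.Res

/-!
# Ranks of higher Chow groups and trilinear forms
-/

set_option autoImplicit false

open CategoryTheory CategoryTheory.Limits AlgebraicGeometry MvPolynomial
open Pool.Agent.R904.CU Pool.Agent.Y116.UV Pool.Agent.Z125.UN
open Pool.Agent.R904.TR (toInt ft_toInt ft_int ft_trans dim_spec dim_int dim_quot_poly)

namespace Pool.Agent.R904.CH

theorem fin_exact {A B C : Type} [AddCommGroup A] [AddCommGroup B] [AddCommGroup C] [Module ℚ A]
    [Module ℚ B] [Module ℚ C] (a : A →ₗ[ℚ] B) (b : B →ₗ[ℚ] C) (h : Function.Exact a b)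
    (hA : Module.Finite ℚ A) (hC : Module.Finite ℚ C) : Module.Finite ℚ B := by
  have : IsNoetherian ℚ B := isNoetherian_of_range_eq_ker a b (LinearMap.exact_iff.1 h).symm
  exact Module.IsNoetherian.finite ℚ B

theorem fin_equiv {A B : Type} [AddCommGroup A] [AddCommGroup B] [Module ℚ A] [Module ℚ B]
    (e : Nonempty (A ≃ₗ[ℚ] B)) (hA : Module.Finite ℚ A) : Module.Finite ℚ B := by
  obtain ⟨e⟩ := e
  exact Module.Finite.equiv e

section

variable {R : Type} [CommRing R] [hR : Algebra.FiniteType ℤ R]

include hR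

variable (K : ChowThy) (sep : Prop)

theorem bnd (h0 : K.Fin (Spec (.of R))) : Bnd sep fun X : Sch R => K.Fin X.left where
  iso {X Y} h e hX n w := by
    obtain ⟨e⟩ := e
    exact fin_equiv (K.iso n w _ _ ((Over.forget _).mapIso e)) (hX n w)
  total {Z X U} i j h ht hZ hU n w := by
    obtain ⟨a, b, d, h1, h2, h3, -⟩ := K.localization w X.left Z.left U.left _ i.left j.left
      (ft_int h) ht.closed ht.opened ht.compl
    exact fin_exact (a n) (b n) (h1 n) (hZ n w) (hU n w)
  opened {Z X U} i j h ht hZ hX n w := by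
    obtain ⟨a, b, d, h1, h2, h3, h4⟩ := K.localization w X.left Z.left U.left _ i.left j.left
      (ft_int h) ht.closed ht.opened ht.compl
    cases n with
    | zero =>
      have := hX 0 w
      exact Module.Finite.of_surjective (b 0) h4
    | succ n => exact fin_exact (b (n + 1)) (d n) (h2 n) (hX (n + 1) w) (hZ n w)
  closed {Z X U} i j h ht hX hU n w := by
    obtain ⟨a, b, d, h1, h2, h3, -⟩ := K.localization w X.left Z.left U.left _ i.left j.left
      (ft_int h) ht.closed ht.opened ht.compl
    exact fin_exact (d n) (a n) (h3 n) (hU (n + 1) w) (hX n w)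
  space m n w := by
    have h1 := K.bundle n (w - ((m + 1 - 1 : ℕ) : ℤ)) R (m + 1) (f1 R m) (Spec (.of R)) (𝟙 _)
      ⟨inferInstance, range_id m⟩
    rw [sub_add_cancel] at h1
    have h2 := fin_equiv h1 (h0 n _)
    exact fin_equiv (K.iso n w _ _ ((Over.forget _).mapIso (affIso (jouOne R m)).symm)) h2
  jouanolou A _ _ _ m f U j hj hr h n w := by
    have := ft_trans (R := R) A
    obtain ⟨e⟩ := K.bundle n w A m f U.left j.left ⟨hj, hr⟩
    exact fin_equiv ⟨e.symm⟩ (h n _)
  torus A _ _ _ h n w := by
    have := ft_trans (R := R) A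
    obtain ⟨p, hp⟩ := K.torus n w A
    have h1 : Module.Finite ℚ (K.G n (w + 1) (Spec (.of (LaurentPolynomial A)))) := h n (w + 1)
    exact Module.Finite.of_surjective p hp
  bundle A _ _ _ m f U j hj hr h n w := by
    have := ft_trans (R := R) A
    have h1 := K.bundle n (w - ((m - 1 : ℕ) : ℤ)) A m f U.left j.left ⟨hj, hr⟩
    rw [sub_add_cancel] at h1
    exact fin_equiv h1 (h n _)

end

variable (K : ChowThy)

/-- rings of dimension at most one -/
theorem fin_dim_one (R : Type) [CommRing R] [hR : Algebra.FiniteType ℤ R]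
    (h : ringKrullDim R ≤ 1) : K.Fin (Spec (.of R)) := by
  intro i m
  refine K.curves i m _ (toInt R) ⟨ft_toInt, ?_⟩ ?_
  · unfold toInt
    infer_instance
  · rw [dim_spec]
    exact h

/-- Bass's conjecture and trilinear forms with coefficients `0` and `1` -/
theorem all_iff : K.All ↔ K.ZeroOne := by
  constructor
  · intro h a b c T _
    have hT : FT False (hypS T) := ft_aff False
    exact h _ _ (ft_int hT)
  · intro h X f hf
    have hX : FT False (Over.mk f : Sch ℤ) := ⟨hf.1, hf.2, fun h => h.elim⟩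
    exact universal (R := ℤ) (S := {0, 1}) (bnd K False (fin_dim_one K ℤ dim_int)).toUni
      (Or.inl rfl) (Or.inr rfl) (fun a b c T hT => h a b c T fun i j k => hT i j k)
      (presents_zero_one fun x => ⟨x, rfl⟩) (Over.mk f) hX

section field

variable (k : Type) [Field k] [Finite k]

theorem fin_field : K.Fin (Spec (.of k)) :=
  fin_dim_one K k (by rw [ringKrullDim_eq_zero_of_field]; exact zero_le_one)

/-- smooth schemes of dimension at most `d` over a finite field and trilinear forms -/
theorem dim_iff (d : ℕ) :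
    ((∀ X : Sch k, FT True X → Smooth X.hom → topologicalKrullDim X.left ≤ d → K.Fin X.left) ↔
      ∀ (a b c : ℕ) (T : Fin a → Fin b → Fin c → k), (a ≤ d + 2 ∨ b ≤ d + 2 ∨ c ≤ d + 2) →
        K.Fin (hypS T).left) ∧
    ((∀ X : Sch k, FT True X → Smooth X.hom → topologicalKrullDim X.left ≤ d → K.Fin X.left) ↔
      ∀ X : Sch k, FT True X → topologicalKrullDim X.left ≤ d → K.Fin X.left) := by
  have hB := bnd K True (fin_field K k)
  have hs : (∀ X : Sch k, FT True X → Smooth X.hom → topologicalKrullDim X.left ≤ d →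
      K.Fin X.left) → ∀ X : Sch k, FT True X → topologicalKrullDim X.left ≤ d → K.Fin X.left :=
    fun h => dim_smooth hB d fun X hX hs hn => h X hX hs hn
  refine ⟨⟨fun h a b c T hm => ?_, fun h X hX _ hn => ?_⟩, hs, fun h X hX _ hn => h X hX hn⟩
  · have h2 : ∀ I : Ideal (MvPolynomial (Fin (d + 1)) k),
        K.Fin (aff k (MvPolynomial (Fin (d + 1)) k ⧸ I)).left :=
      dim_to_closed hB fun A _ _ _ hA => hs h _ (ft_aff True) (by rw [topDim_aff]; exact hA)
    exact of_block hB (fun a b c' hc' T => to_tri hB h2 a b c' hc' T) T hm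
  · exact (dim_tri hB d).mpr (fun a b T => h a b (d + 2) T (Or.inr (Or.inr le_rfl))) X hX hn

/-- trilinear forms over a finite field with a block of at most three variables -/
theorem three {a b c : ℕ} (T : Fin a → Fin b → Fin c → k) (h : a ≤ 3 ∨ b ≤ 3 ∨ c ≤ 3) :
    K.Fin (hypS T).left := by
  refine (dim_iff K k 1).1.mp (fun X hX _ hn i m => ?_) a b c T h
  exact K.curves i m _ _ (ft_int hX) (by exact_mod_cast hn)

end field

/-- trilinear forms over a domain of dimension at most one with a block of at most two variables -/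
theorem two (R : Type) [CommRing R] [IsDomain R] [hR : Algebra.FiniteType ℤ R]
    (h : ringKrullDim R ≤ 1) {a b c : ℕ} (T : Fin a → Fin b → Fin c → R)
    (hm : a ≤ 2 ∨ b ≤ 2 ∨ c ≤ 2) : K.Fin (hypS T).left := by
  have hN : IsNoetherianRing R := Algebra.FiniteType.isNoetherianRing ℤ R
  have hB := bnd K False (fin_dim_one K R h)
  have hA : ∀ I : Ideal (MvPolynomial (Fin 1) R),
      K.Fin (aff R (MvPolynomial (Fin 1) R ⧸ I)).left := by
    intro I
    by_cases hI : I = ⊥
    · subst hI
      exact iso_alg hB.toUni (AlgEquiv.quotientBot R _).symm (hB.space 1)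
    · have := ft_trans (R := R) (MvPolynomial (Fin 1) R ⧸ I)
      exact fin_dim_one K _ (dim_quot_poly R h I hI)
  exact of_block hB (fun a b c' hc' T => to_tri hB hA a b c' hc' T) T hm

end Pool.Agent.R904.CH
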